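import Pool.Agent.Y524G.Main

/-!
# Balanced trisections with the same core which are not isotopic

Group trisections (Abrams, Gay, Kirby, *Group trisections and smooth 4-manifolds*, Geom. Topol. 22
(2018)) are the algebraic form of trisections of closed oriented smooth 4-manifolds: a balanced
`(g,k)` trisection is a triple of epimorphisms from the surface group of genus `g` onto the free
group of rank `g` (the three handlebodies) such that each pairwise push-out is free of rank `k`
(the three sectors).

We exhibit a balanced `(3,1)` trisection `φ` of a 4-manifold `X` with core `Σ` such that the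
connected sums `φ # φ` and `φ # rot φ` are not isomorphic, even up to arbitrary isomorphisms of
closed surface groups and relabelling of the handlebodies; here `rot φ` is `φ` with its three
handlebodies relabelled cyclically. Both sums are balanced `(6,2)` trisections of the same
4-manifold `X # X`, with the same core: the pair `(X, Σ) # (X, Σ)` does not see the labels.
-/

namespace Pool.Agent.Results.MP_5efd29_gt.SameCore

open Pool.Agent.Y524F Pool.Agent.Y524G

theorem result : ∃ φ : Fin 3 → (FreeGroup (Fin 3 × Bool) →* FreeGroup (Fin 3)),
    IsTri φ 1 ∧ IsTri (sumMaps φ φ) 2 ∧ IsTri (sumMaps φ (fun i => φ (i + 1))) 2 ∧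
    ¬ WeakIsoMaps (sumMaps φ φ) (sumMaps φ (fun i => φ (i + 1))) :=
  main5

end Pool.Agent.Results.MP_5efd29_gt.SameCore
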